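import Pool.Agent.Work.MP_1f68be_co.Main

set_option autoImplicit false

open Filter Topology
open Pool.Agent.Work.MP_1f68be_co

namespace Pool.Agent.Results.MP_1f68be_co.InBall

/-- The numerical limit. -/
theorem tendsto_ratio {d : ℕ} (hd : 3 ≤ d) :
    Tendsto (fun n : ℕ => (Real.log ((d : ℝ) + 4) + n * Real.log 2) / (n * Real.log d)) atTop
      (𝓝 (Real.log 2 / Real.log d)) := by
  have hlogd : 0 < Real.log d := Real.log_pos (by exact_mod_cast (by omega : 1 < d))
  have h1 : Tendsto (fun n : ℕ => (Real.log ((d : ℝ) + 4) / Real.log d) * (1 / (n : ℝ)) +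
      Real.log 2 / Real.log d) atTop
      (𝓝 ((Real.log ((d : ℝ) + 4) / Real.log d) * 0 + Real.log 2 / Real.log d)) :=
    (tendsto_one_div_atTop_nhds_zero_nat.const_mul _).add tendsto_const_nhds
  rw [mul_zero, zero_add] at h1
  refine h1.congr' ?_
  filter_upwards [eventually_gt_atTop 0] with n hn
  have hn' : (n : ℝ) ≠ 0 := by exact_mod_cast hn.ne'
  field_simp

theorem ratio_le {d : ℕ} (hd : 3 ≤ d) {n : ℕ} (hn : 0 < n) :
    Real.log (s0 (kleetope d n)) / Real.log ((kleetope d n).card) ≤
      (Real.log ((d : ℝ) + 4) + n * Real.log 2) / (n * Real.log d) := by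
  have hlogd : 0 < Real.log d := Real.log_pos (by exact_mod_cast (by omega : 1 < d))
  have hn' : (0 : ℝ) < n := by exact_mod_cast hn
  have hlog2 : 0 < Real.log 2 := Real.log_pos one_lt_two
  have hnum : 0 ≤ Real.log ((d : ℝ) + 4) + n * Real.log 2 := by
    have : 0 ≤ Real.log ((d : ℝ) + 4) := Real.log_nonneg (by
      have : (0 : ℝ) ≤ d := Nat.cast_nonneg d
      linarith)
    positivity
  have h1 : Real.log (s0 (kleetope d n)) ≤ Real.log ((d : ℝ) + 4) + n * Real.log 2 := by
    have h2 : (s0 (kleetope d n) : ℝ) ≤ ((d : ℝ) + 4) * 2 ^ n := by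
      have h3 : (s0 (kleetope d n) : ℝ) ≤ ((d + 1) + 3 * 2 ^ n : ℕ) := by
        exact_mod_cast s0_kleetope_le hd n
      refine h3.trans ?_
      push_cast
      have h4 : (1 : ℝ) ≤ 2 ^ n := one_le_pow₀ one_le_two
      have h5 : (0 : ℝ) ≤ (d : ℝ) + 1 := by positivity
      nlinarith
    rcases Nat.eq_zero_or_pos (s0 (kleetope d n)) with h0 | h0
    · rw [h0, Nat.cast_zero, Real.log_zero]
      exact hnum
    · have h6 : (0 : ℝ) < s0 (kleetope d n) := by exact_mod_cast h0
      refine (Real.log_le_log h6 h2).trans ?_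
      rw [Real.log_mul (by positivity) (by positivity), Real.log_pow]
  have h7 : n * Real.log d ≤ Real.log ((kleetope d n).card) := by
    rw [← Real.log_pow]
    refine Real.log_le_log (by positivity) ?_
    exact_mod_cast card_kleetope_ge hd n
  exact div_le_div₀ hnum h1 (by positivity) h7

theorem exponent_le {d : ℕ} (hd : 3 ≤ d) :
    simplicialExponent d ≤ ((Real.log 2 / Real.log d : ℝ) : EReal) := by
  refine EReal.le_of_forall_lt_iff_le.1 fun z hz => ?_
  have hz' : Real.log 2 / Real.log d < z := by exact_mod_cast hz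
  unfold simplicialExponent
  refine Filter.liminf_le_of_frequently_le' ?_
  rw [Filter.frequently_comap, Filter.frequently_atTop]
  intro N
  have hev : ∀ᶠ n : ℕ in atTop,
      (Real.log ((d : ℝ) + 4) + n * Real.log 2) / (n * Real.log d) < z :=
    (tendsto_ratio hd).eventually_lt_const hz'
  obtain ⟨n, hn1, hn2, hn3⟩ := (hev.and ((eventually_gt_atTop 0).and
    (eventually_ge_atTop N))).exists
  refine ⟨(kleetope d n).card, ?_, ⟨kleetope d n, kleetope_isPolytope (by omega) n,
    kleetope_isSimplicial (by omega) n⟩, rfl, ?_⟩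
  · refine le_trans (hn3.trans ?_) (card_kleetope_ge hd n)
    exact (Nat.lt_pow_self (by omega : 1 < d)).le
  · exact_mod_cast (ratio_le hd hn2).trans hn1.le

/-- **Inscribability exponents, polytopes inside the ball.** The inscribability exponent of
simplicial `d`-polytopes (for polytopes contained in the ball bounded by the sphere) is at most
`log 2 / log d` for every `d ≥ 3`; so it is smaller than the conjectured
`log (d - 1) / log d` for every `d ≥ 4`. -/
theorem result : ∀ d : ℕ, 3 ≤ d →
    simplicialExponent d ≤ ((Real.log 2 / Real.log d : ℝ) : EReal) ∧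
    (4 ≤ d → simplicialExponent d < ((Real.log ((d : ℝ) - 1) / Real.log d : ℝ) : EReal)) := by
  refine fun d hd => ⟨exponent_le hd, fun hd4 => ?_⟩
  refine lt_of_le_of_lt (exponent_le hd) ?_
  rw [EReal.coe_lt_coe_iff]
  have hd' : (4 : ℝ) ≤ d := by exact_mod_cast hd4
  have hlogd : 0 < Real.log d := Real.log_pos (by linarith)
  refine div_lt_div_of_pos_right ?_ hlogd
  exact Real.log_lt_log (by norm_num) (by linarith)

end Pool.Agent.Results.MP_1f68be_co.InBall
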