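import Mathlib
import Pool.Agent.Work.MP_1f68be_co.KB.All

/-!
The inscribability exponent of simplicial `d`-polytopes inside the ball is at most `1 / ⌊d / 2⌋`.
-/

open Pool.Agent.Work.MP_1f68be_co

namespace Pool.Agent.Results.MP_1f68be_co.ManyFacets

/-- For every `d ≥ 4` the inscribability exponent of simplicial `d`-polytopes (for polytopes contained
in the ball bounded by the sphere) is at most `1 / ⌊d / 2⌋`, and for `d ≥ 6` it is smaller than
`log 2 / log d`. -/
theorem result : ∀ d : ℕ, 4 ≤ d →
    simplicialExponent d ≤ ((1 / ((d / 2 : ℕ) : ℝ) : ℝ) : EReal) ∧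
    (6 ≤ d → simplicialExponent d < ((Real.log 2 / Real.log d : ℝ) : EReal)) :=
  Work.MP_1f68be_co.KB.all_KJ

end Pool.Agent.Results.MP_1f68be_co.ManyFacets
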